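import Pool.Agent.K7.H64.RDE

/-!
# Unbounded solutions of `x_n = β x_{n-1} / (B_2 x_{n-2} + B_3 x_{n-3} + B_4 x_{n-4})`

For `k = 3, 4` and every set `D` of delays with `2 ∈ D ⊆ {2, ..., k}` and `D ≠ {2}`, the special
case with the numerator `β x_{n-1}` and the denominator `∑_{j ∈ D} B_j x_{n-j}` has, for all positive
parameters, a nonempty open set of initial values with unbounded solutions; so it is not ESB.
-/

set_option autoImplicit false

namespace Pool.Agent.Results.MP_5c7d49_an.UnboundedCases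

open Pool.Agent.K7.H64.RDE

theorem result : ∀ k : ℕ, k = 3 ∨ k = 4 → ∀ D : Finset ℕ, D ⊆ Finset.Icc 2 k → 2 ∈ D → D ≠ {2} →
    OpenUnbounded k {1} D ∧ ¬ ESB k {1} D := by
  intro k hk D hD h2 hne
  have h : OpenUnbounded k {1} D := by
    rcases hk with rfl | rfl
    · have hP : ∀ D ∈ (Finset.Icc 2 3).powerset, 2 ∈ D → D ≠ {2} → D = {2, 3} := by decide
      rw [hP D (Finset.mem_powerset.2 hD) h2 hne]
      exact case3_23
    · have hP : ∀ D ∈ (Finset.Icc 2 4).powerset, 2 ∈ D → D ≠ {2} →
          D = {2, 3} ∨ D = {2, 4} ∨ D = {2, 3, 4} := by decide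
      rcases hP D (Finset.mem_powerset.2 hD) h2 hne with rfl | rfl | rfl
      · exact case4_23
      · exact case4_24
      · exact case4_234
  exact ⟨h, not_esb k {1} D h⟩

end Pool.Agent.Results.MP_5c7d49_an.UnboundedCases
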